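import Pool.Agent.L5helper72.BD.Defs2
import Pool.Agent.TH437.GR.Small

/-! SPR: for `θ > 1` few `n` are blocked. -/

set_option autoImplicit false

namespace Pool.Agent.L5helper11.BD

open Finset Filter Topology
open Pool.Agent.L5helper72.BD (Big)
open Pool.Agent.TH437.GRS (roughSet mem_roughSet rough_card)

noncomputable def yy (A C θ : ℝ) (k : ℕ) : ℝ := Real.exp (A * (k : ℝ) ^ θ) + C

open Classical in
noncomputable def T (A C θ : ℝ) (N k : ℕ) : Finset ℕ :=
  (range N).filter (fun n => yy A C θ k < ((n + k).minFac : ℝ))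

lemma mem_T {A C θ : ℝ} {N k n : ℕ} :
    n ∈ T A C θ N k ↔ n < N ∧ yy A C θ k < ((n + k).minFac : ℝ) := by
  classical
  simp [T]

lemma T_card {A C θ : ℝ} (hC : 2 ≤ C) {N k : ℕ} (hk1 : 1 ≤ k) (hkN : k ≤ N) :
    ((T A C θ N k).card : ℝ) ≤ 50 * N / Real.log (yy A C θ k) := by
  have hy : 2 ≤ yy A C θ k := by unfold yy; linarith [Real.exp_pos (A * (k : ℝ) ^ θ)]
  have hlog : 0 < Real.log (yy A C θ k) := Real.log_pos (by linarith)
  rcases (T A C θ N k).eq_empty_or_nonempty with h | ⟨n, hn⟩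
  · rw [h, card_empty, Nat.cast_zero]; positivity
  · rw [mem_T] at hn
    obtain ⟨z, hz⟩ : ∃ z : ℕ, z = ⌈yy A C θ k⌉₊ := ⟨_, rfl⟩
    have hzle : yy A C θ k ≤ z := hz ▸ Nat.le_ceil _
    have hz2 : 2 ≤ z := by
      have : (2 : ℝ) ≤ z := hy.trans hzle
      exact_mod_cast this
    have hzN : z ≤ 2 * N := by
      have h1 : (n + k).minFac ≤ n + k := Nat.minFac_le (by omega)
      have h2 : z ≤ (n + k).minFac := by rw [hz]; exact Nat.ceil_le.2 hn.2.le
      omega
    have h3 : (T A C θ N k).card ≤ (roughSet (2 * N) z).card := by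
      refine card_le_card_of_injOn (fun n => n + k) ?_ ?_
      · intro n hn
        rw [mem_coe, mem_T] at hn
        change n + k ∈ roughSet (2 * N) z
        rw [mem_roughSet]
        refine ⟨⟨by omega, by omega⟩, fun q hq hqd => ?_⟩
        have h4 : (n + k).minFac ≤ q := Nat.minFac_le_of_dvd hq.two_le hqd
        have h5 : z ≤ (n + k).minFac := by rw [hz]; exact Nat.ceil_le.2 hn.2.le
        exact h5.trans h4
      · intro a _ b _ h
        simpa using h
    have h5 := rough_card hz2 hzN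
    have h6 : Real.log (yy A C θ k) ≤ Real.log z := Real.log_le_log (by linarith) hzle
    rw [le_div_iff₀ hlog]
    have h7 : ((T A C θ N k).card : ℝ) ≤ ((roughSet (2 * N) z).card : ℝ) := by exact_mod_cast h3
    calc ((T A C θ N k).card : ℝ) * Real.log (yy A C θ k)
        ≤ ((roughSet (2 * N) z).card : ℝ) * Real.log z := mul_le_mul h7 h6 hlog.le (by positivity)
      _ ≤ 25 * ((2 * N : ℕ) : ℝ) := h5
      _ = 50 * N := by push_cast; ring

/-- the bound grows faster than `2k` -/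
lemma yy_ge {A C θ : ℝ} (hA : 0 < A) (hθ : 1 < θ) (hC : 8 / A ^ 2 ≤ C) {k : ℕ} (hk : 1 ≤ k) :
    2 * (k : ℝ) ≤ yy A C θ k := by
  have hk1 : (1 : ℝ) ≤ k := by exact_mod_cast hk
  have hA2 : 0 < A ^ 2 := by positivity
  unfold yy
  rcases le_total (4 / A ^ 2) (k : ℝ) with h | h
  · have h1 : (k : ℝ) ≤ (k : ℝ) ^ θ := by
      calc (k : ℝ) = (k : ℝ) ^ (1 : ℝ) := (Real.rpow_one _).symm
        _ ≤ (k : ℝ) ^ θ := Real.rpow_le_rpow_of_exponent_le hk1 hθ.le
    have h2 : Real.exp (A * k) ≤ Real.exp (A * (k : ℝ) ^ θ) :=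
      Real.exp_le_exp.2 (mul_le_mul_of_nonneg_left h1 hA.le)
    have h3 := Real.pow_div_factorial_le_exp (A * k) (by positivity) 2
    have h4 : 4 ≤ A ^ 2 * k := by
      rw [div_le_iff₀ hA2] at h; linarith
    have h5 : 2 * (k : ℝ) ≤ (A * k) ^ 2 / (Nat.factorial 2 : ℕ) := by
      rw [le_div_iff₀ (by positivity)]
      have : ((Nat.factorial 2 : ℕ) : ℝ) = 2 := by norm_num [Nat.factorial]
      rw [this]
      nlinarith
    have hC0 : 0 ≤ C := le_trans (by positivity) hC
    linarith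
  · have h1 : 2 * (k : ℝ) ≤ 8 / A ^ 2 := by
      have : 8 / A ^ 2 = 2 * (4 / A ^ 2) := by ring
      rw [this]; linarith
    linarith [Real.exp_pos (A * (k : ℝ) ^ θ)]

lemma cover {A C θ : ℝ} (hA : 0 < A) (hθ : 1 < θ) (hC : 8 / A ^ 2 ≤ C) (N : ℕ) :
    {n | n < N ∧ (Big A C θ n).Nonempty} ⊆ (((Icc 1 N).biUnion (fun k => T A C θ N k) : Finset ℕ) : Set ℕ) := by
  rintro n ⟨hn, k, hk1, hk⟩
  rw [mem_coe, mem_biUnion]
  have h1 : (n + k).minFac ≤ n + k := Nat.minFac_le (by omega)
  have h2 := yy_ge hA hθ hC hk1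
  have h3 : ((n + k).minFac : ℝ) ≤ ((n + k : ℕ) : ℝ) := by exact_mod_cast h1
  have h4 : 2 * (k : ℝ) < ((n + k : ℕ) : ℝ) := by
    refine h2.trans_lt (lt_of_lt_of_le ?_ h3)
    exact hk
  have h5 : 2 * k < n + k := by exact_mod_cast h4
  refine ⟨k, ?_, ?_⟩
  · rw [mem_Icc]; omega
  · rw [mem_T]; exact ⟨hn, hk⟩

theorem SPR_holds : Pool.Agent.L5helper72.BD.St_SPR := by
  intro A θ δ hA hθ hδ
  set s : ℕ → ℝ := fun k => 1 / A * (1 / (k : ℝ) ^ θ) with hs
  have hs0 : ∀ k, 0 ≤ s k := fun k => by positivity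
  have hsum : Summable s := (Real.summable_one_div_nat_rpow.2 hθ).mul_left _
  have htail := tendsto_sum_nat_add s
  obtain ⟨K0, hK0⟩ := ((tendsto_order.1 htail).2 (δ / 100) (by positivity)).exists
  set C : ℝ := 8 / A ^ 2 + 2 + Real.exp (100 * K0 / δ) with hCdef
  have hA2 : 0 < 8 / A ^ 2 := by positivity
  have hexp := Real.exp_pos (100 * K0 / δ)
  have hC1 : 8 / A ^ 2 ≤ C := by linarith
  have hC2 : 2 ≤ C := by linarith
  have hlogC : 100 * K0 / δ ≤ Real.log C := by
    rw [Real.le_log_iff_exp_le (by linarith)]; linarith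
  have hlogC0 : 0 < Real.log C := Real.log_pos (by linarith)
  refine ⟨C, by linarith, Eventually.of_forall fun N => ?_⟩
  have h1 : (Set.ncard {n | n < N ∧ (Big A C θ n).Nonempty} : ℝ) ≤
      ∑ k ∈ Icc 1 N, ((T A C θ N k).card : ℝ) := by
    have h2 := Set.ncard_le_ncard (cover hA hθ hC1 N) (Finset.finite_toSet _)
    rw [Set.ncard_coe_finset] at h2
    have h3 := h2.trans (card_biUnion_le (s := Icc 1 N) (t := fun k => T A C θ N k))
    exact_mod_cast h3
  have h2 : ∀ k ∈ Icc 1 N, ((T A C θ N k).card : ℝ) ≤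
      50 * N * ((if k < K0 then 1 / Real.log C else 0) + (if K0 ≤ k then s k else 0)) := by
    intro k hk
    rw [mem_Icc] at hk
    refine (T_card hC2 hk.1 hk.2).trans ?_
    rw [mul_div_assoc]
    have hk1 : (1 : ℝ) ≤ k := by exact_mod_cast hk.1
    have hkθ : 0 < (k : ℝ) ^ θ := Real.rpow_pos_of_pos (by linarith) _
    have e1 : Real.log C ≤ Real.log (yy A C θ k) :=
      Real.log_le_log (by linarith) (by unfold yy; linarith [Real.exp_pos (A * (k : ℝ) ^ θ)])
    have e2 : A * (k : ℝ) ^ θ ≤ Real.log (yy A C θ k) := by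
      rw [Real.le_log_iff_exp_le (by unfold yy; linarith [Real.exp_pos (A * (k : ℝ) ^ θ)])]
      unfold yy; linarith
    have key : 1 / Real.log (yy A C θ k) ≤
        (if k < K0 then 1 / Real.log C else 0) + (if K0 ≤ k then s k else 0) := by
      rcases lt_or_ge k K0 with h | h
      · rw [if_pos h, if_neg (by omega), add_zero]
        exact one_div_le_one_div_of_le hlogC0 e1
      · rw [if_neg (by omega), if_pos h, zero_add, hs]
        simp only
        rw [div_mul_div_comm, one_mul]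
        exact one_div_le_one_div_of_le (by positivity) e2
    calc 50 * ((N : ℝ) / Real.log (yy A C θ k)) = 50 * N * (1 / Real.log (yy A C θ k)) := by ring
      _ ≤ _ := mul_le_mul_of_nonneg_left key (by positivity)
  have h3 : ∑ k ∈ Icc 1 N, (if k < K0 then 1 / Real.log C else 0) ≤ δ / 100 := by
    rw [← sum_filter, sum_const, nsmul_eq_mul]
    have hc : ((Icc 1 N).filter (fun k => k < K0)).card ≤ K0 := by
      calc ((Icc 1 N).filter (fun k => k < K0)).card ≤ (range K0).card := by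
            refine card_le_card fun k hk => ?_
            rw [mem_filter] at hk
            rw [mem_range]; exact hk.2
        _ = K0 := card_range K0
    have hc' : (((Icc 1 N).filter (fun k => k < K0)).card : ℝ) ≤ K0 := by exact_mod_cast hc
    rw [mul_one_div, div_le_iff₀ hlogC0]
    rw [div_le_iff₀ hδ] at hlogC
    nlinarith
  have h4 : ∑ k ∈ Icc 1 N, (if K0 ≤ k then s k else 0) ≤ δ / 100 := by
    have e1 : ∑ k ∈ Icc 1 N, (if K0 ≤ k then s k else 0) ≤ ∑' k, s (k + K0) := by
      rw [← sum_filter]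
      have hs' : Summable fun k => s (k + K0) := (summable_nat_add_iff K0).2 hsum
      have e2 : ∑ k ∈ (Icc 1 N).filter (fun k => K0 ≤ k), s k =
          ∑ k ∈ ((Icc 1 N).filter (fun k => K0 ≤ k)).image (fun k => k - K0), s (k + K0) := by
        rw [sum_image]
        · refine sum_congr rfl fun k hk => ?_
          rw [mem_filter] at hk
          rw [Nat.sub_add_cancel hk.2]
        · intro x hx y hy hxy
          simp only [coe_filter, Set.mem_ofPred_eq] at hx hy
          have := hx.2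
          have := hy.2
          simp only at hxy
          omega
      rw [e2]
      exact hs'.sum_le_tsum _ fun k _ => hs0 _
    exact e1.trans hK0.le
  calc (Set.ncard {n | n < N ∧ (Big A C θ n).Nonempty} : ℝ)
      ≤ ∑ k ∈ Icc 1 N, ((T A C θ N k).card : ℝ) := h1
    _ ≤ ∑ k ∈ Icc 1 N, 50 * N * ((if k < K0 then 1 / Real.log C else 0) +
        (if K0 ≤ k then s k else 0)) := sum_le_sum h2
    _ = 50 * N * (∑ k ∈ Icc 1 N, (if k < K0 then 1 / Real.log C else 0) +
        ∑ k ∈ Icc 1 N, (if K0 ≤ k then s k else 0)) := by rw [← mul_sum, sum_add_distrib]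
    _ ≤ 50 * N * (δ / 100 + δ / 100) := by gcongr
    _ = δ * N := by ring

end Pool.Agent.L5helper11.BD
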